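import Pool.Agent.Q120.FA.Stm
import Pool.Agent.H295R2.T1

/-! Project FA (helper120), job ID (helper277): the formula for the discrepancy. -/

set_option autoImplicit false

namespace Pool.Agent.Q277.FA

open MeasureTheory Filter Topology Set Pool.Agent.Q120.FA
open Pool.Agent.H295R2 (farey mu Mx sum_farey_eq cnt_sub Mx_div sum_swap_div Ef)

lemma filt_eq (N : ℕ) (t : ℝ) : (cnt N t : ℝ) = Pool.Agent.H295R2.cnt N t := by
  classical
  unfold Pool.Agent.H295R2.cnt
  rw [sum_farey_eq N (fun x => if ((x : ℚ) : ℝ) ≤ t then 1 else 0)]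
  unfold cnt
  have h1 : (((Finset.Icc 1 N ×ˢ Finset.Icc 1 N).filter fun q : ℕ × ℕ =>
      q.1 ≤ q.2 ∧ q.1.Coprime q.2 ∧ (q.1 : ℝ) / (q.2 : ℝ) ≤ t).card : ℝ) =
      ∑ q ∈ Finset.Icc 1 N ×ˢ Finset.Icc 1 N,
        if q.1 ≤ q.2 ∧ q.1.Coprime q.2 ∧ (q.1 : ℝ) / (q.2 : ℝ) ≤ t then 1 else 0 := by
    rw [Finset.sum_boole]
  rw [h1, Finset.sum_product_right]
  refine Finset.sum_congr rfl fun k hk => ?_
  rw [Finset.mem_Icc] at hk
  rw [Finset.sum_filter, ← Finset.sum_subset (Finset.Icc_subset_Icc_right hk.2)]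
  · refine Finset.sum_congr rfl fun h hh => ?_
    rw [Finset.mem_Icc] at hh
    push_cast
    by_cases hc : Nat.Coprime h k
    · by_cases ht : (h : ℝ) / (k : ℝ) ≤ t
      · rw [if_pos ⟨hh.2, hc, ht⟩, if_pos hc, if_pos ht]
      · rw [if_neg (fun h' => ht h'.2.2), if_pos hc, if_neg ht]
    · rw [if_neg (fun h' => hc h'.2.1), if_neg hc]
  · intro h hh hn
    rw [Finset.mem_Icc] at hh hn
    rw [if_neg]
    rintro ⟨h', -, -⟩
    exact hn ⟨hh.1, h'⟩

lemma card_farey (N : ℕ) : ((farey N).card : ℝ) = ∑ n ∈ Finset.Icc 1 N, (n.totient : ℝ) := by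
  have h1 := sum_farey_eq N (fun _ => (1 : ℝ))
  simp only [Finset.sum_const, nsmul_eq_mul, mul_one] at h1
  rw [h1]
  refine Finset.sum_congr rfl fun k hk => ?_
  have h2 := Nat.filter_coprime_Ico_eq_totient k 1
  have h3 : (Finset.Icc 1 k).filter (fun h => Nat.Coprime h k) =
      (Finset.Ico 1 (1 + k)).filter (fun x => Nat.Coprime k x) := by
    ext x
    simp only [Finset.mem_filter, Finset.mem_Icc, Finset.mem_Ico, Nat.coprime_comm]
    constructor
    · rintro ⟨⟨a, b⟩, c⟩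
      exact ⟨⟨a, by omega⟩, c⟩
    · rintro ⟨⟨a, b⟩, c⟩
      exact ⟨⟨a, by omega⟩, c⟩
  rw [h3, h2]

/-- the first form -/
lemma E_eq (N : ℕ) (hN : 1 ≤ N) {t : ℝ} (h0 : 0 ≤ t) (h1 : t ≤ 1) :
    E N t = -(∑ d ∈ Finset.Icc 1 N, Mt (N / d) * ps ((d : ℝ) * t)) - 1 / 2 := by
  unfold E
  rw [filt_eq, ← card_farey, cnt_sub hN h0 h1]
  unfold Ef
  congr 2
  refine Finset.sum_congr rfl fun d _ => ?_
  rw [Mx_div]
  rfl

lemma S_zero (t : ℝ) : S 0 t = 0 := by
  unfold S
  simp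

/-- the truncated coefficients -/
lemma swap (N K : ℕ) (hK : 1 ≤ K) (t : ℝ) :
    ∑ d ∈ Finset.Icc 1 N, ps ((d : ℝ) * t) * ∑ e ∈ Finset.Icc 1 (N / d), (if e < K then mu e else 0) =
      ∑ m ∈ Finset.Icc 1 (K - 1), mu m * S (N / m) t := by
  rw [← sum_swap_div N (fun e => if e < K then mu e else 0) (fun d => ps ((d : ℝ) * t))]
  have h1 : ∀ e : ℕ, ∑ d ∈ Finset.Icc 1 (N / e), ps ((d : ℝ) * t) = S (N / e) t := fun e => rfl
  simp only [h1]
  have h2 : ∑ e ∈ Finset.Icc 1 N, (if e < K then mu e else 0) * S (N / e) t =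
      ∑ e ∈ Finset.Icc 1 (N + K), (if e < K then mu e else 0) * S (N / e) t := by
    refine Finset.sum_subset (Finset.Icc_subset_Icc_right (by omega)) fun e he hn => ?_
    rw [Finset.mem_Icc] at he hn
    rw [Nat.div_eq_of_lt (by omega), S_zero, mul_zero]
  have h3 : ∑ m ∈ Finset.Icc 1 (K - 1), mu m * S (N / m) t =
      ∑ e ∈ Finset.Icc 1 (N + K), (if e < K then mu e else 0) * S (N / e) t := by
    rw [← Finset.sum_subset (Finset.Icc_subset_Icc_right (show K - 1 ≤ N + K by omega))]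
    · refine Finset.sum_congr rfl fun e he => ?_
      rw [Finset.mem_Icc] at he
      rw [if_pos (by omega)]
    · intro e he hn
      rw [Finset.mem_Icc] at he hn
      rw [if_neg (by omega), zero_mul]
  rw [h2, h3]

lemma inner_small (N K d : ℕ) (hK : 1 ≤ K) (hd1 : 1 ≤ d) (hd : d ≤ N / K) :
    ∑ e ∈ Finset.Icc 1 (N / d), (if e < K then mu e else 0) = Mt (K - 1) := by
  have hKd : K ≤ N / d := by
    rw [Nat.le_div_iff_mul_le hd1]
    have := (Nat.le_div_iff_mul_le (show 0 < K by omega)).1 hd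
    rwa [mul_comm] at this
  unfold Mt
  symm
  rw [← Finset.sum_subset (Finset.Icc_subset_Icc_right (show K - 1 ≤ N / d by omega))]
  · refine Finset.sum_congr rfl fun e he => ?_
    rw [Finset.mem_Icc] at he
    rw [if_pos (by omega)]
    rfl
  · intro e he hn
    rw [Finset.mem_Icc] at he hn
    rw [if_neg (by omega)]

lemma inner_large (N K d : ℕ) (hK : 1 ≤ K) (hd1 : 1 ≤ d) (hd : N / K < d) :
    ∑ e ∈ Finset.Icc 1 (N / d), (if e < K then mu e else 0) = Mt (N / d) := by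
  have hKd : N / d < K := by
    rw [Nat.div_lt_iff_lt_mul hd1]
    have := (Nat.div_lt_iff_lt_mul (show 0 < K by omega)).1 hd
    rwa [mul_comm] at this
  unfold Mt
  refine Finset.sum_congr rfl fun e he => ?_
  rw [Finset.mem_Icc] at he
  rw [if_pos (by omega)]
  rfl

theorem t_ID : J_ID := by
  intro N K hN hK t h0 h1
  rw [E_eq N hN h0 h1]
  have hsw := swap N K hK t
  have hle : N / K ≤ N := Nat.div_le_self _ _
  -- split the sums at `N / K`
  have hspl : ∀ f : ℕ → ℝ, ∑ d ∈ Finset.Icc 1 N, f d =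
      ∑ d ∈ Finset.Icc 1 (N / K), f d + ∑ d ∈ Finset.Ioc (N / K) N, f d := by
    intro f
    have e1 : Finset.Icc 1 N = Finset.Ioc 0 N := rfl
    have e2 : Finset.Icc 1 (N / K) = Finset.Ioc 0 (N / K) := rfl
    rw [e1, e2, Finset.sum_Ioc_consecutive f (Nat.zero_le _) hle]
  rw [hspl] at hsw
  have hA : ∑ d ∈ Finset.Icc 1 (N / K), ps ((d : ℝ) * t) *
      ∑ e ∈ Finset.Icc 1 (N / d), (if e < K then mu e else 0) = Mt (K - 1) * S (N / K) t := by
    unfold S
    rw [Finset.mul_sum]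
    refine Finset.sum_congr rfl fun d hd => ?_
    rw [Finset.mem_Icc] at hd
    rw [inner_small N K d hK hd.1 hd.2, mul_comm]
  have hB : ∑ d ∈ Finset.Ioc (N / K) N, ps ((d : ℝ) * t) *
      ∑ e ∈ Finset.Icc 1 (N / d), (if e < K then mu e else 0) =
      ∑ d ∈ Finset.Ioc (N / K) N, Mt (N / d) * ps ((d : ℝ) * t) := by
    refine Finset.sum_congr rfl fun d hd => ?_
    rw [Finset.mem_Ioc] at hd
    rw [inner_large N K d hK ((Nat.zero_le _).trans_lt hd.1) hd.1, mul_comm]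
  rw [hA, hB] at hsw
  have hG : G K (bK K) N t = -(∑ m ∈ Finset.Icc 1 (K - 1), mu m * S (N / m) t) + Mt (K - 1) * S (N / K) t := by
    obtain ⟨k, rfl⟩ : ∃ k, K = k + 1 := ⟨K - 1, by omega⟩
    unfold G
    rw [Finset.sum_Icc_succ_top (by omega), Nat.add_sub_cancel]
    congr 1
    · rw [← Finset.sum_neg_distrib]
      refine Finset.sum_congr rfl fun m hm => ?_
      rw [Finset.mem_Icc] at hm
      unfold bK
      rw [if_pos (by omega)]
      unfold mu
      ring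
    · unfold bK
      rw [if_neg (by omega), Nat.add_sub_cancel]
  rw [hG, hspl (fun d => Mt (N / d) * ps ((d : ℝ) * t)), ← hsw]
  ring

end Pool.Agent.Q277.FA
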