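import Pool.Agent.Q120.FA.Stm
import Pool.Agent.H332R2.FL.SawQ

/-! Project FA (helper120), job L2 (helper277): the sharp mean square bound. -/

set_option autoImplicit false

namespace Pool.Agent.Q277.FA

open MeasureTheory Filter Topology Set Pool.Agent.Q120.FA
open H332.FL (sw JJ quad_expand JJ_eq)

lemma sum_inv_sqrt (n : ℕ) : ∑ g ∈ Finset.Icc 1 n, 1 / Real.sqrt g ≤ 2 * Real.sqrt n := by
  induction n with
  | zero => simp
  | succ n ih =>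
    rw [Finset.sum_Icc_succ_top (by omega)]
    have h1 : 1 / Real.sqrt ((n + 1 : ℕ) : ℝ) ≤ 2 * Real.sqrt ((n + 1 : ℕ) : ℝ) - 2 * Real.sqrt n := by
      have hp : 0 < Real.sqrt ((n + 1 : ℕ) : ℝ) := Real.sqrt_pos.2 (by exact_mod_cast Nat.succ_pos n)
      have hs : Real.sqrt ((n + 1 : ℕ) : ℝ) ^ 2 = n + 1 := by
        rw [Real.sq_sqrt (Nat.cast_nonneg _)]
        push_cast
        rfl
      have hs0 : Real.sqrt (n : ℝ) ^ 2 = n := Real.sq_sqrt (Nat.cast_nonneg _)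
      have hn0 : 0 ≤ Real.sqrt (n : ℝ) := Real.sqrt_nonneg _
      rw [div_le_iff₀ hp]
      nlinarith [sq_nonneg (Real.sqrt ((n + 1 : ℕ) : ℝ) - Real.sqrt n)]
    linarith

lemma harm_le (n : ℕ) (hn : 1 ≤ n) : ∑ k ∈ Finset.Icc 1 n, 1 / (k : ℝ) ≤ 4 * Real.sqrt (Real.sqrt n) := by
  have h1 := harmonic_le_one_add_log n
  rw [harmonic_eq_sum_Icc] at h1
  push_cast at h1
  have h2 : ∑ k ∈ Finset.Icc 1 n, 1 / (k : ℝ) = ∑ k ∈ Finset.Icc 1 n, ((k : ℝ))⁻¹ :=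
    Finset.sum_congr rfl fun k _ => one_div _
  rw [h2]
  refine h1.trans ?_
  have hn0 : (0 : ℝ) < n := by exact_mod_cast hn
  have hs : 0 < Real.sqrt (n : ℝ) := Real.sqrt_pos.2 hn0
  have hss : 0 < Real.sqrt (Real.sqrt (n : ℝ)) := Real.sqrt_pos.2 hs
  have h3 : Real.log n = 4 * Real.log (Real.sqrt (Real.sqrt n)) := by
    rw [Real.log_sqrt hs.le, Real.log_sqrt hn0.le]
    ring
  have h4 := Real.log_le_sub_one_of_pos hss
  rw [h3]
  linarith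

lemma sum_mult (n g : ℕ) (hg : 0 < g) :
    ∑ a ∈ Finset.Icc 1 n, (if g ∣ a then 1 / (a : ℝ) else 0) =
      1 / (g : ℝ) * ∑ k ∈ Finset.Icc 1 (n / g), 1 / (k : ℝ) := by
  rw [← Finset.sum_filter]
  have h1 : ∑ a ∈ (Finset.Icc 1 n).filter (fun a => g ∣ a), 1 / (a : ℝ) =
      ∑ k ∈ Finset.Icc 1 (n / g), 1 / ((g * k : ℕ) : ℝ) := by
    symm
    refine Finset.sum_nbij' (fun k => g * k) (fun a => a / g) ?_ ?_ ?_ ?_ ?_
    · intro k hk
      rw [Finset.mem_Icc, Nat.le_div_iff_mul_le hg] at hk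
      rw [Finset.mem_filter, Finset.mem_Icc]
      refine ⟨⟨Nat.mul_pos hg hk.1, ?_⟩, dvd_mul_right g k⟩
      rw [mul_comm]; exact hk.2
    · intro a ha
      rw [Finset.mem_filter, Finset.mem_Icc] at ha
      obtain ⟨⟨h1, h2⟩, ⟨k, rfl⟩⟩ := ha
      rw [Nat.mul_div_cancel_left k hg, Finset.mem_Icc, Nat.le_div_iff_mul_le hg, mul_comm]
      refine ⟨Nat.pos_of_ne_zero (by rintro rfl; simp at h1), h2⟩
    · intro k _
      exact Nat.mul_div_cancel_left k hg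
    · intro a ha
      rw [Finset.mem_filter] at ha
      exact Nat.mul_div_cancel' ha.2
    · intro k _
      rfl
  rw [h1, Finset.mul_sum]
  refine Finset.sum_congr rfl fun k _ => ?_
  push_cast
  rw [one_div_mul_one_div]

theorem t_L2 : J_L2 := by
  refine ⟨3, by norm_num, fun N c B hB hc => ?_⟩
  have h0 : ∫ t in (0 : ℝ)..1, (∑ d ∈ Finset.Icc 1 N, c d * ps ((d : ℝ) * t)) ^ 2 =
      ∫ t in (0 : ℝ)..1, (∑ d ∈ Finset.Icc 1 N, c d * sw (d * t)) ^ 2 := rfl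
  rw [h0, quad_expand]
  have h1 : ∀ a ∈ Finset.Icc 1 N, ∀ b ∈ Finset.Icc 1 N, c a * c b * JJ a b ≤
      B ^ 2 / 12 * ∑ g ∈ Finset.Icc 1 N, (if g ∣ a then 1 / (a : ℝ) else 0) * (if g ∣ b then 1 / (b : ℝ) else 0) *
        (g : ℝ) ^ 2 := by
    intro a ha b hb
    have hca := hc a ha
    have hcb := hc b hb
    rw [Finset.mem_Icc] at ha hb
    have ha0 : (0 : ℝ) < a := by exact_mod_cast ha.1
    have hb0 : (0 : ℝ) < b := by exact_mod_cast hb.1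
    have hJ := JJ_eq a b ha.1 hb.1
    have hJ0 : 0 ≤ JJ a b := by rw [hJ]; positivity
    have hg : Nat.gcd a b ∈ Finset.Icc 1 N := by
      rw [Finset.mem_Icc]
      exact ⟨Nat.gcd_pos_of_pos_left b ha.1, (Nat.gcd_le_left b ha.1).trans ha.2⟩
    have h2 : 1 / (a : ℝ) * (1 / (b : ℝ)) * (Nat.gcd a b : ℝ) ^ 2 ≤
        ∑ g ∈ Finset.Icc 1 N, (if g ∣ a then 1 / (a : ℝ) else 0) * (if g ∣ b then 1 / (b : ℝ) else 0) * (g : ℝ) ^ 2 := by
      have h3 := Finset.single_le_sum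
        (f := fun g : ℕ => (if g ∣ a then 1 / (a : ℝ) else 0) * (if g ∣ b then 1 / (b : ℝ) else 0) * (g : ℝ) ^ 2)
        (fun g _ => by positivity) hg
      simp only [Nat.gcd_dvd_left, Nat.gcd_dvd_right, if_true] at h3
      exact h3
    have h4 : c a * c b ≤ B * B := by
      calc c a * c b ≤ |c a * c b| := le_abs_self _
        _ = |c a| * |c b| := abs_mul _ _
        _ ≤ _ := mul_le_mul hca hcb (abs_nonneg _) hB
    calc c a * c b * JJ a b ≤ B * B * JJ a b := mul_le_mul_of_nonneg_right h4 hJ0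
      _ = B ^ 2 / 12 * (1 / (a : ℝ) * (1 / (b : ℝ)) * (Nat.gcd a b : ℝ) ^ 2) := by
          rw [hJ]; field_simp
      _ ≤ _ := mul_le_mul_of_nonneg_left h2 (by positivity)
  have h5 : ∑ a ∈ Finset.Icc 1 N, ∑ b ∈ Finset.Icc 1 N, c a * c b * JJ a b ≤
      ∑ a ∈ Finset.Icc 1 N, ∑ b ∈ Finset.Icc 1 N, B ^ 2 / 12 * ∑ g ∈ Finset.Icc 1 N,
        (if g ∣ a then 1 / (a : ℝ) else 0) * (if g ∣ b then 1 / (b : ℝ) else 0) * (g : ℝ) ^ 2 :=
    Finset.sum_le_sum fun a ha => Finset.sum_le_sum fun b hb => h1 a ha b hb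
  refine h5.trans ?_
  have h6 : ∑ a ∈ Finset.Icc 1 N, ∑ b ∈ Finset.Icc 1 N, B ^ 2 / 12 * ∑ g ∈ Finset.Icc 1 N,
        (if g ∣ a then 1 / (a : ℝ) else 0) * (if g ∣ b then 1 / (b : ℝ) else 0) * (g : ℝ) ^ 2 =
      B ^ 2 / 12 * ∑ g ∈ Finset.Icc 1 N, (∑ a ∈ Finset.Icc 1 N, (if g ∣ a then 1 / (a : ℝ) else 0)) ^ 2 *
        (g : ℝ) ^ 2 := by
    simp only [← Finset.mul_sum]
    congr 1
    have hsw : ∀ a ∈ Finset.Icc 1 N, ∑ b ∈ Finset.Icc 1 N, ∑ g ∈ Finset.Icc 1 N,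
        (if g ∣ a then 1 / (a : ℝ) else 0) * (if g ∣ b then 1 / (b : ℝ) else 0) * (g : ℝ) ^ 2 =
        ∑ g ∈ Finset.Icc 1 N, ∑ b ∈ Finset.Icc 1 N,
        (if g ∣ a then 1 / (a : ℝ) else 0) * (if g ∣ b then 1 / (b : ℝ) else 0) * (g : ℝ) ^ 2 :=
      fun a _ => Finset.sum_comm
    rw [Finset.sum_congr rfl hsw, Finset.sum_comm]
    refine Finset.sum_congr rfl fun g _ => ?_
    rw [sq (∑ a ∈ Finset.Icc 1 N, (if g ∣ a then 1 / (a : ℝ) else 0)), Finset.sum_mul_sum, Finset.sum_mul]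
    refine Finset.sum_congr rfl fun a _ => ?_
    rw [Finset.sum_mul]
  rw [h6]
  have h7 : ∀ g ∈ Finset.Icc 1 N, (∑ a ∈ Finset.Icc 1 N, (if g ∣ a then 1 / (a : ℝ) else 0)) ^ 2 *
        (g : ℝ) ^ 2 ≤ 16 * Real.sqrt N * (1 / Real.sqrt g) := by
    intro g hg
    rw [Finset.mem_Icc] at hg
    have hg0 : (0 : ℝ) < g := by exact_mod_cast hg.1
    rw [sum_mult N g hg.1, mul_pow, one_div, inv_pow, mul_comm (((g : ℝ) ^ 2)⁻¹), mul_assoc,
      inv_mul_cancel₀ (by positivity), mul_one]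
    have hq : 1 ≤ N / g := (Nat.one_le_div_iff hg.1).2 hg.2
    have h8 := harm_le (N / g) hq
    have h9 : 0 ≤ ∑ k ∈ Finset.Icc 1 (N / g), 1 / (k : ℝ) := Finset.sum_nonneg fun _ _ => by positivity
    calc (∑ k ∈ Finset.Icc 1 (N / g), 1 / (k : ℝ)) ^ 2 ≤ (4 * Real.sqrt (Real.sqrt ((N / g : ℕ) : ℝ))) ^ 2 :=
          pow_le_pow_left₀ h9 h8 2
      _ = 16 * Real.sqrt ((N / g : ℕ) : ℝ) := by
          rw [mul_pow, Real.sq_sqrt (Real.sqrt_nonneg _)]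
          norm_num
      _ ≤ 16 * Real.sqrt ((N : ℝ) / g) :=
          mul_le_mul_of_nonneg_left (Real.sqrt_le_sqrt Nat.cast_div_le) (by norm_num)
      _ = 16 * Real.sqrt N * (1 / Real.sqrt g) := by
          rw [Real.sqrt_div (Nat.cast_nonneg N)]
          ring
  calc B ^ 2 / 12 * ∑ g ∈ Finset.Icc 1 N, (∑ a ∈ Finset.Icc 1 N, (if g ∣ a then 1 / (a : ℝ) else 0)) ^ 2 *
        (g : ℝ) ^ 2 ≤ B ^ 2 / 12 * ∑ g ∈ Finset.Icc 1 N, 16 * Real.sqrt N * (1 / Real.sqrt g) :=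
        mul_le_mul_of_nonneg_left (Finset.sum_le_sum h7) (by positivity)
    _ = B ^ 2 / 12 * (16 * Real.sqrt N * ∑ g ∈ Finset.Icc 1 N, 1 / Real.sqrt g) := by
        simp only [Finset.mul_sum]
    _ ≤ B ^ 2 / 12 * (16 * Real.sqrt N * (2 * Real.sqrt N)) :=
        mul_le_mul_of_nonneg_left (mul_le_mul_of_nonneg_left (sum_inv_sqrt N) (by positivity)) (by positivity)
    _ = B ^ 2 * (8 / 3) * (Real.sqrt N * Real.sqrt N) := by ring
    _ ≤ 3 * B ^ 2 * N := by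
        rw [Real.mul_self_sqrt (Nat.cast_nonneg N)]
        have : 0 ≤ B ^ 2 * (N : ℝ) := by positivity
        nlinarith

end Pool.Agent.Q277.FA
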