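import Pool.Agent.Q120.FA.Stm2
import Pool.Agent.Q277.FA.ID
import Pool.Agent.Q277.FA.L2
import Pool.Agent.H295R2.T6b

/-! Project FA (helper120), job EU (helper277): the upper bound for every `p ≥ 1`. -/

set_option autoImplicit false

namespace Pool.Agent.Q277.FA

open MeasureTheory Filter Topology Set Pool.Agent.Q120.FA
open H332.FL (sw abs_sw_le measurable_sw)

lemma abs_ps_le (x : ℝ) : |ps x| ≤ 1 / 2 := abs_sw_le x

lemma measurable_ps : Measurable ps := measurable_sw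

/-- a trigonometric-like sum -/
noncomputable def fs (n : ℕ) (c : ℕ → ℝ) (t : ℝ) : ℝ := ∑ d ∈ Finset.Icc 1 n, c d * ps ((d : ℝ) * t)

lemma measurable_fs (n : ℕ) (c : ℕ → ℝ) : Measurable (fs n c) := by
  unfold fs
  refine Finset.measurable_sum _ fun d _ => ?_
  exact (measurable_ps.comp (measurable_const.mul measurable_id)).const_mul _

lemma abs_fs_le (n : ℕ) (c : ℕ → ℝ) (B : ℝ) (hc : ∀ d ∈ Finset.Icc 1 n, |c d| ≤ B) (t : ℝ) :
    |fs n c t| ≤ n * B / 2 := by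
  unfold fs
  refine (Finset.abs_sum_le_sum_abs _ _).trans ?_
  calc ∑ d ∈ Finset.Icc 1 n, |c d * ps ((d : ℝ) * t)| ≤ ∑ _d ∈ Finset.Icc 1 n, B * (1 / 2) := by
        refine Finset.sum_le_sum fun d hd => ?_
        rw [abs_mul]
        exact mul_le_mul (hc d hd) (abs_ps_le _) (abs_nonneg _) ((abs_nonneg _).trans (hc d hd))
    _ = n * B / 2 := by
        rw [Finset.sum_const, Nat.card_Icc, nsmul_eq_mul, Nat.add_sub_cancel]
        ring

/-- bounded measurable functions are integrable on `[0,1]`, also after `|·|^p` -/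
lemma ii_abs_rpow {f : ℝ → ℝ} (hf : Measurable f) {M p : ℝ} (hp : 0 ≤ p) (hM : ∀ t, |f t| ≤ M) :
    IntervalIntegrable (fun t => |f t| ^ p) volume 0 1 := by
  have hM0 : 0 ≤ M := (abs_nonneg _).trans (hM 0)
  refine (intervalIntegrable_const (c := M ^ p)).mono_fun ?_ ?_
  · exact ((hf.abs.pow_const p)).aestronglyMeasurable
  · refine Filter.Eventually.of_forall fun t => ?_
    show ‖|f t| ^ p‖ ≤ ‖M ^ p‖
    rw [Real.norm_of_nonneg (by positivity), Real.norm_of_nonneg (by positivity)]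
    exact Real.rpow_le_rpow (abs_nonneg _) (hM t) hp

/-- one block -/
lemma block {A : ℝ} (hL2 : ∀ (N : ℕ) (c : ℕ → ℝ) (B : ℝ), 0 ≤ B →
    (∀ d ∈ Finset.Icc 1 N, |c d| ≤ B) →
    ∫ t in (0 : ℝ)..1, (∑ d ∈ Finset.Icc 1 N, c d * ps ((d : ℝ) * t)) ^ 2 ≤ A * B ^ 2 * N)
    {p : ℝ} (hp : 2 ≤ p) (n : ℕ) (hn : 1 ≤ n) (c : ℕ → ℝ) (B : ℝ) (hB : 0 ≤ B)
    (hc : ∀ d ∈ Finset.Icc 1 n, |c d| ≤ B) :
    ∫ t in (0 : ℝ)..1, |fs n c t| ^ p ≤ A * B ^ p * (n : ℝ) ^ (p - 1) := by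
  have hn0 : (0 : ℝ) < n := by exact_mod_cast hn
  have hb := abs_fs_le n c B hc
  have h1 : ∀ t, |fs n c t| ^ p ≤ (n * B / 2) ^ (p - 2) * (fs n c t) ^ 2 := by
    intro t
    have h2 : |fs n c t| ^ p = |fs n c t| ^ (p - 2) * (fs n c t) ^ 2 := by
      rw [← sq_abs (fs n c t)]
      rcases eq_or_lt_of_le (abs_nonneg (fs n c t)) with h0 | h0
      · rw [← h0, Real.zero_rpow (by linarith)]
        ring
      · rw [← Real.rpow_natCast |fs n c t| 2, ← Real.rpow_add h0]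
        congr 1
        push_cast
        ring
    rw [h2]
    exact mul_le_mul_of_nonneg_right (Real.rpow_le_rpow (abs_nonneg _) (hb t) (by linarith)) (sq_nonneg _)
  have hi1 : IntervalIntegrable (fun t => |fs n c t| ^ p) volume 0 1 :=
    ii_abs_rpow (measurable_fs n c) (by linarith) hb
  have hi2 : IntervalIntegrable (fun t => (fs n c t) ^ 2) volume 0 1 := by
    have h3 := ii_abs_rpow (p := 2) (measurable_fs n c) (by norm_num) hb
    have h4 : (fun t => |fs n c t| ^ (2 : ℝ)) = fun t => (fs n c t) ^ 2 := by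
      funext t
      rw [Real.rpow_two, sq_abs]
    rwa [h4] at h3
  have h5 : ∫ t in (0 : ℝ)..1, |fs n c t| ^ p ≤
      ∫ t in (0 : ℝ)..1, (n * B / 2) ^ (p - 2) * (fs n c t) ^ 2 :=
    intervalIntegral.integral_mono_on zero_le_one hi1 (hi2.const_mul _) fun t _ => h1 t
  rw [intervalIntegral.integral_const_mul] at h5
  refine h5.trans ?_
  have h6 := hL2 n c B hB hc
  have h7 : (n * B / 2) ^ (p - 2) ≤ (n : ℝ) ^ (p - 2) * B ^ (p - 2) := by
    rw [← Real.mul_rpow hn0.le hB]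
    refine Real.rpow_le_rpow (by positivity) ?_ (by linarith)
    have : 0 ≤ (n : ℝ) * B := by positivity
    linarith
  calc (n * B / 2) ^ (p - 2) * ∫ t in (0 : ℝ)..1, (fs n c t) ^ 2
      ≤ (n : ℝ) ^ (p - 2) * B ^ (p - 2) * (A * B ^ 2 * n) := by
        refine mul_le_mul h7 h6 ?_ (by positivity)
        exact intervalIntegral.integral_nonneg zero_le_one fun t _ => sq_nonneg _
    _ = A * (B ^ (p - 2) * B ^ 2) * ((n : ℝ) ^ (p - 2) * n) := by ring
    _ = A * B ^ p * (n : ℝ) ^ (p - 1) := by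
        have e1 : (n : ℝ) ^ (p - 2) * n = (n : ℝ) ^ (p - 1) := by
          conv_lhs => rw [← Real.rpow_one (n : ℝ)]
          rw [← Real.rpow_mul hn0.le, ← Real.rpow_add hn0]
          congr 1
          ring
        have e2 : B ^ (p - 2) * B ^ 2 = B ^ p := by
          rcases eq_or_lt_of_le hB with h0 | h0
          · rw [← h0, Real.zero_rpow (show p ≠ 0 by linarith)]
            ring
          · rw [← Real.rpow_natCast B 2, ← Real.rpow_add h0]
            congr 1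
            push_cast
            ring
        rw [e1, e2]

/-- the coefficients of the `i`-th dyadic block -/
noncomputable def ci (N i d : ℕ) : ℝ := if Nat.log 2 d = i ∧ d ≤ N then Mt (N / d) else 0

lemma blocks (N : ℕ) (t : ℝ) :
    ∑ d ∈ Finset.Icc 1 N, Mt (N / d) * ps ((d : ℝ) * t) =
      ∑ i ∈ Finset.range (Nat.log 2 N + 1), fs (2 ^ (i + 1)) (ci N i) t := by
  have hmap : ∀ d ∈ Finset.Icc 1 N, Nat.log 2 d ∈ Finset.range (Nat.log 2 N + 1) := by
    intro d hd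
    rw [Finset.mem_Icc] at hd
    rw [Finset.mem_range]
    exact Nat.lt_succ_of_le (Nat.log_mono_right hd.2)
  rw [← Finset.sum_fiberwise_of_maps_to hmap]
  refine Finset.sum_congr rfl fun i _ => ?_
  rw [Finset.sum_filter]
  unfold fs
  have h1 : ∀ n : ℕ, N ≤ n → ∑ d ∈ Finset.Icc 1 N, (if Nat.log 2 d = i then Mt (N / d) * ps ((d : ℝ) * t) else 0) =
      ∑ d ∈ Finset.Icc 1 n, ci N i d * ps ((d : ℝ) * t) := by
    intro n hn
    rw [← Finset.sum_subset (Finset.Icc_subset_Icc_right hn)]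
    · refine Finset.sum_congr rfl fun d hd => ?_
      rw [Finset.mem_Icc] at hd
      unfold ci
      by_cases h : Nat.log 2 d = i
      · rw [if_pos h, if_pos ⟨h, hd.2⟩]
      · rw [if_neg h, if_neg (fun h' => h h'.1), zero_mul]
    · intro d hd hd'
      rw [Finset.mem_Icc] at hd hd'
      unfold ci
      rw [if_neg (fun h' => hd' ⟨hd.1, h'.2⟩), zero_mul]
  have h2 : ∀ n : ℕ, 2 ^ (i + 1) ≤ n → ∑ d ∈ Finset.Icc 1 (2 ^ (i + 1)), ci N i d * ps ((d : ℝ) * t) =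
      ∑ d ∈ Finset.Icc 1 n, ci N i d * ps ((d : ℝ) * t) := by
    intro n hn
    refine Finset.sum_subset (Finset.Icc_subset_Icc_right hn) fun d hd hd' => ?_
    rw [Finset.mem_Icc] at hd hd'
    unfold ci
    rw [if_neg, zero_mul]
    rintro ⟨h', -⟩
    apply hd'
    refine ⟨hd.1, ?_⟩
    have := Nat.lt_pow_succ_log_self (b := 2) one_lt_two d
    rw [h'] at this
    exact this.le
  rw [h1 (N + 2 ^ (i + 1)) (Nat.le_add_right _ _), h2 (N + 2 ^ (i + 1)) (Nat.le_add_left _ _)]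

lemma ci_le {C θ : ℝ} (hC : 0 < C) (hθ : 0 ≤ θ) (hM : ∀ k : ℕ, 1 ≤ k → |Mt k| ≤ C * (k : ℝ) ^ θ) (N i d : ℕ)
    (hd : 1 ≤ d) : |ci N i d| ≤ C * ((N : ℝ) / 2 ^ i) ^ θ := by
  unfold ci
  split_ifs with h
  · obtain ⟨h1, h2⟩ := h
    have hk : 1 ≤ N / d := (Nat.one_le_div_iff hd).2 h2
    refine (hM _ hk).trans (mul_le_mul_of_nonneg_left ?_ hC.le)
    refine Real.rpow_le_rpow (Nat.cast_nonneg _) ?_ hθ
    have h3 : ((2 : ℝ) ^ i) ≤ d := by
      have := Nat.pow_log_le_self 2 (show d ≠ 0 by omega)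
      rw [h1] at this
      exact_mod_cast this
    calc ((N / d : ℕ) : ℝ) ≤ (N : ℝ) / d := Nat.cast_div_le
      _ ≤ (N : ℝ) / 2 ^ i := div_le_div_of_nonneg_left (Nat.cast_nonneg _) (by positivity) h3
  · rw [abs_zero]
    positivity

lemma Mt_eq (k : ℕ) : Mt k = Pool.Agent.H295R2.Mx (k : ℝ) := by
  unfold Pool.Agent.H295R2.Mx
  rw [Nat.floor_natCast]
  rfl

lemma log_bound {δ : ℝ} (hδ : 0 < δ) (N : ℕ) (hN : 1 ≤ N) :
    ((Nat.log 2 N + 1 : ℕ) : ℝ) ≤ (1 + 2 / δ) * (N : ℝ) ^ δ := by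
  have hN0 : (0 : ℝ) < N := by exact_mod_cast hN
  have h1 : (1 : ℝ) ≤ (N : ℝ) ^ δ := Real.one_le_rpow (by exact_mod_cast hN) hδ.le
  have h2 : (Nat.log 2 N : ℝ) * Real.log 2 ≤ Real.log N := by
    rw [← Real.log_pow]
    refine Real.log_le_log (by positivity) ?_
    have := Nat.pow_log_le_self 2 (show N ≠ 0 by omega)
    exact_mod_cast this
  have h3 : (1 : ℝ) / 2 ≤ Real.log 2 := by
    have := Real.log_two_gt_d9
    linarith
  have h4 : Real.log N ≤ (N : ℝ) ^ δ / δ := Real.log_le_rpow_div hN0.le hδ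
  have h5 : (Nat.log 2 N : ℝ) * (1 / 2) ≤ (Nat.log 2 N : ℝ) * Real.log 2 :=
    mul_le_mul_of_nonneg_left h3 (Nat.cast_nonneg _)
  push_cast
  have h6 : (N : ℝ) ^ δ / δ = 1 / δ * (N : ℝ) ^ δ := by ring
  rw [h6] at h4
  have h7 : (1 + 2 / δ) * (N : ℝ) ^ δ = (N : ℝ) ^ δ + 2 * (1 / δ * (N : ℝ) ^ δ) := by ring
  rw [h7]
  linarith


lemma E_bound (N : ℕ) (hN : 1 ≤ N) {p : ℝ} (hp : 1 ≤ p) {t : ℝ} (h0 : 0 ≤ t) (h1 : t ≤ 1) :
    |E N t| ^ p ≤ (2 : ℝ) ^ p * (((Nat.log 2 N + 1 : ℕ) : ℝ) ^ (p - 1) *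
      ∑ i ∈ Finset.range (Nat.log 2 N + 1), |fs (2 ^ (i + 1)) (ci N i) t| ^ p + 1) := by
  rw [E_eq N hN h0 h1, blocks N t]
  set S : ℝ := ∑ i ∈ Finset.range (Nat.log 2 N + 1), |fs (2 ^ (i + 1)) (ci N i) t| with hS
  have hS0 : 0 ≤ S := Finset.sum_nonneg fun _ _ => abs_nonneg _
  have h2 : |-(∑ i ∈ Finset.range (Nat.log 2 N + 1), fs (2 ^ (i + 1)) (ci N i) t) - 1 / 2| ≤ 2 * max S 1 := by
    have h3 : |∑ i ∈ Finset.range (Nat.log 2 N + 1), fs (2 ^ (i + 1)) (ci N i) t| ≤ S :=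
      Finset.abs_sum_le_sum_abs _ _
    have h4 := le_max_left S 1
    have h5 := le_max_right S 1
    rw [abs_le] at h3 ⊢
    constructor <;> linarith [h3.1, h3.2]
  calc |-(∑ i ∈ Finset.range (Nat.log 2 N + 1), fs (2 ^ (i + 1)) (ci N i) t) - 1 / 2| ^ p
      ≤ (2 * max S 1) ^ p := Real.rpow_le_rpow (abs_nonneg _) h2 (by linarith)
    _ = 2 ^ p * (max S 1) ^ p := Real.mul_rpow (by norm_num) (hS0.trans (le_max_left _ _))
    _ ≤ 2 ^ p * (S ^ p + 1) := by
        refine mul_le_mul_of_nonneg_left ?_ (by positivity)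
        have hSp : 0 ≤ S ^ p := by positivity
        rcases max_cases S 1 with ⟨h, -⟩ | ⟨h, -⟩
        · rw [h]; linarith
        · rw [h, Real.one_rpow]; linarith
    _ ≤ _ := by
        refine mul_le_mul_of_nonneg_left ?_ (by positivity)
        have h6 := Real.rpow_sum_le_const_mul_sum_rpow (s := Finset.range (Nat.log 2 N + 1))
          (f := fun i => fs (2 ^ (i + 1)) (ci N i) t) hp
        rw [Finset.card_range] at h6
        linarith

lemma main2 {p δ : ℝ} (hp : 2 ≤ p) (hδ : 0 < δ) (hδ1 : δ ≤ 1) : ∃ A : ℝ, 0 < A ∧ ∀ N : ℕ, 1 ≤ N →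
    ∫ t in (0 : ℝ)..1, |E N t| ^ p ≤ (A * (N : ℝ) ^ (max Th (1 - 1 / p) + 2 * δ)) ^ p := by
  have hp0 : 0 < p := by linarith
  obtain ⟨A2, hA2, hL2⟩ := t_L2
  have hTh1 : Th ≤ 1 := Pool.Agent.H295R2.zetaSup_le_one
  have hTh0 : 1 / 2 ≤ Th := Pool.Agent.H295R2.half_le_zetaSup
  obtain ⟨C, hC, hM⟩ := Pool.Agent.H295R2.mertens_bound (θ := Pool.Agent.H295R2.zetaSup) (σ := Th + δ)
    (by have : (1 : ℝ) / 2 ≤ Pool.Agent.H295R2.zetaSup := Pool.Agent.H295R2.half_le_zetaSup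
        linarith) Pool.Agent.H295R2.zetaSup_free
    (by show Th < Th + δ
        linarith) (by linarith)
  set θ : ℝ := Th + δ with hθ
  have hθ0 : 0 ≤ θ := by rw [hθ]; linarith
  have hMt : ∀ k : ℕ, 1 ≤ k → |Mt k| ≤ C * (k : ℝ) ^ θ := fun k hk => by
    rw [Mt_eq]
    exact hM k (by exact_mod_cast hk)
  set μ : ℝ := max θ (1 - 1 / p) with hμ
  have hμ1 : θ ≤ μ := le_max_left _ _
  have hμ2 : 1 - 1 / p ≤ μ := le_max_right _ _
  have hμ3 : p - 1 ≤ p * μ := by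
    have := mul_le_mul_of_nonneg_left hμ2 hp0.le
    have e : p * (1 - 1 / p) = p - 1 := by field_simp
    linarith
  have hμ0 : 0 ≤ μ := hθ0.trans hμ1
  have hμ4 : μ + δ ≤ max Th (1 - 1 / p) + 2 * δ := by
    have : μ ≤ max Th (1 - 1 / p) + δ := by
      refine max_le ?_ ?_
      · have := le_max_left Th (1 - 1 / p)
        rw [hθ]
        linarith
      · have := le_max_right Th (1 - 1 / p)
        linarith
    linarith
  set K : ℝ := A2 * (C ^ p * 2 ^ (p - 1)) with hK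
  have hK0 : 0 < K := by positivity
  refine ⟨2 * (K + 1) ^ (1 / p) * (1 + 2 / δ), by positivity, fun N hN => ?_⟩
  have hN0 : (0 : ℝ) < N := by exact_mod_cast hN
  have hN1 : (1 : ℝ) ≤ N := by exact_mod_cast hN
  set n : ℕ := Nat.log 2 N + 1 with hn
  have hn1 : (1 : ℝ) ≤ n := by
    rw [hn]
    push_cast
    have : (0 : ℝ) ≤ (Nat.log 2 N : ℝ) := Nat.cast_nonneg _
    linarith
  -- the blocks
  have hblk : ∀ i ∈ Finset.range n, ∫ t in (0 : ℝ)..1, |fs (2 ^ (i + 1)) (ci N i) t| ^ p ≤ K * (N : ℝ) ^ (p * μ) := by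
    intro i hi
    rw [Finset.mem_range] at hi
    have hx1 : (1 : ℝ) ≤ 2 ^ i := one_le_pow₀ (by norm_num)
    have hx0 : (0 : ℝ) < 2 ^ i := by positivity
    have hxN : (2 : ℝ) ^ i ≤ N := by
      have h3 : 2 ^ i ≤ N := (Nat.pow_le_pow_right (by norm_num) (by omega)).trans
        (Nat.pow_log_le_self 2 (show N ≠ 0 by omega))
      exact_mod_cast h3
    have hy1 : 1 ≤ (N : ℝ) / 2 ^ i := by
      rw [le_div_iff₀ hx0]
      linarith
    have hy0 : 0 < (N : ℝ) / 2 ^ i := by positivity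
    have h4 := block hL2 hp (2 ^ (i + 1)) Nat.one_le_two_pow (ci N i) (C * ((N : ℝ) / 2 ^ i) ^ θ) (by positivity)
      (fun d hd => ci_le hC hθ0 hMt N i d (Finset.mem_Icc.1 hd).1)
    refine h4.trans ?_
    have h5 : (C * ((N : ℝ) / 2 ^ i) ^ θ) ^ p = C ^ p * ((N : ℝ) / 2 ^ i) ^ (θ * p) := by
      rw [Real.mul_rpow hC.le (by positivity), ← Real.rpow_mul hy0.le]
    have h6 : (((2 ^ (i + 1) : ℕ) : ℝ)) ^ (p - 1) = 2 ^ (p - 1) * ((2 : ℝ) ^ i) ^ (p - 1) := by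
      push_cast
      rw [pow_succ, mul_comm, Real.mul_rpow (by norm_num) hx0.le]
    rw [h5, h6]
    have h7 : ((N : ℝ) / 2 ^ i) ^ (θ * p) ≤ ((N : ℝ) / 2 ^ i) ^ (p * μ) :=
      Real.rpow_le_rpow_of_exponent_le hy1 (by nlinarith)
    have h8 : ((2 : ℝ) ^ i) ^ (p - 1) ≤ ((2 : ℝ) ^ i) ^ (p * μ) :=
      Real.rpow_le_rpow_of_exponent_le hx1 hμ3
    have h9 : ((N : ℝ) / 2 ^ i) ^ (p * μ) * ((2 : ℝ) ^ i) ^ (p * μ) = (N : ℝ) ^ (p * μ) := by
      rw [← Real.mul_rpow hy0.le hx0.le, div_mul_cancel₀ _ hx0.ne']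
    calc A2 * (C ^ p * ((N : ℝ) / 2 ^ i) ^ (θ * p)) * (2 ^ (p - 1) * ((2 : ℝ) ^ i) ^ (p - 1))
        = K * (((N : ℝ) / 2 ^ i) ^ (θ * p) * ((2 : ℝ) ^ i) ^ (p - 1)) := by
          rw [hK]
          ring
      _ ≤ K * (((N : ℝ) / 2 ^ i) ^ (p * μ) * ((2 : ℝ) ^ i) ^ (p * μ)) :=
          mul_le_mul_of_nonneg_left (mul_le_mul h7 h8 (by positivity) (by positivity)) hK0.le
      _ = K * (N : ℝ) ^ (p * μ) := by rw [h9]
  -- integrability
  have hint : ∀ i ∈ Finset.range n, IntervalIntegrable (fun t => |fs (2 ^ (i + 1)) (ci N i) t| ^ p) volume 0 1 := by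
    intro i _
    exact ii_abs_rpow (measurable_fs _ _) hp0.le (abs_fs_le _ _ (C * ((N : ℝ) / 2 ^ i) ^ θ)
      (fun d hd => ci_le hC hθ0 hMt N i d (Finset.mem_Icc.1 hd).1))
  have hintS : IntervalIntegrable (fun t => ∑ i ∈ Finset.range n, |fs (2 ^ (i + 1)) (ci N i) t| ^ p) volume 0 1 := by
    have h := IntervalIntegrable.sum (Finset.range n) (f := fun i t => |fs (2 ^ (i + 1)) (ci N i) t| ^ p) hint
    have e : (∑ i ∈ Finset.range n, fun t : ℝ => |fs (2 ^ (i + 1)) (ci N i) t| ^ p) =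
        fun t => ∑ i ∈ Finset.range n, |fs (2 ^ (i + 1)) (ci N i) t| ^ p := by
      ext t
      simp
    rw [← e]
    exact h
  have hintR : IntervalIntegrable (fun t => (2 : ℝ) ^ p * ((n : ℝ) ^ (p - 1) *
      ∑ i ∈ Finset.range n, |fs (2 ^ (i + 1)) (ci N i) t| ^ p + 1)) volume 0 1 :=
    ((hintS.const_mul _).add intervalIntegrable_const).const_mul _
  have hintE : IntervalIntegrable (fun t => |E N t| ^ p) volume 0 1 := by
    have h3 : IntervalIntegrable (fun t => |-(fs N (fun d => Mt (N / d)) t) - 1 / 2| ^ p) volume 0 1 := by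
      obtain ⟨B, hB⟩ : ∃ B : ℝ, ∀ d ∈ Finset.Icc 1 N, |Mt (N / d)| ≤ B := by
        obtain ⟨B, hB⟩ := ((Finset.Icc 1 N).image fun d => |Mt (N / d)|).exists_le
        exact ⟨B, fun d hd => hB _ (Finset.mem_image_of_mem _ hd)⟩
      refine ii_abs_rpow (M := N * B / 2 + 1 / 2) ((measurable_fs _ _).neg.sub_const _) hp0.le fun t => ?_
      have h4 := abs_fs_le N (fun d => Mt (N / d)) B hB t
      show |-(fs N (fun d => Mt (N / d)) t) - 1 / 2| ≤ N * B / 2 + 1 / 2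
      rw [abs_le] at h4 ⊢
      constructor <;> linarith [h4.1, h4.2]
    refine h3.congr ?_
    intro t ht
    rw [Set.uIoc_of_le zero_le_one, Set.mem_Ioc] at ht
    show |-(fs N (fun d => Mt (N / d)) t) - 1 / 2| ^ p = |E N t| ^ p
    rw [E_eq N hN ht.1.le ht.2]
    rfl
  have h10 : ∫ t in (0 : ℝ)..1, |E N t| ^ p ≤ ∫ t in (0 : ℝ)..1, (2 : ℝ) ^ p * ((n : ℝ) ^ (p - 1) *
      ∑ i ∈ Finset.range n, |fs (2 ^ (i + 1)) (ci N i) t| ^ p + 1) :=
    intervalIntegral.integral_mono_on zero_le_one hintE hintR fun t ht =>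
      E_bound N hN (by linarith) ht.1 ht.2
  have h11 : ∫ t in (0 : ℝ)..1, (2 : ℝ) ^ p * ((n : ℝ) ^ (p - 1) *
      ∑ i ∈ Finset.range n, |fs (2 ^ (i + 1)) (ci N i) t| ^ p + 1) =
      (2 : ℝ) ^ p * ((n : ℝ) ^ (p - 1) * ∑ i ∈ Finset.range n, (∫ t in (0 : ℝ)..1, |fs (2 ^ (i + 1)) (ci N i) t| ^ p) + 1) := by
    rw [intervalIntegral.integral_const_mul, intervalIntegral.integral_add (hintS.const_mul _) intervalIntegrable_const,
      intervalIntegral.integral_const_mul, intervalIntegral.integral_finsetSum hint, intervalIntegral.integral_const]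
    simp
  have h12 : ∑ i ∈ Finset.range n, ∫ t in (0 : ℝ)..1, |fs (2 ^ (i + 1)) (ci N i) t| ^ p ≤
      n * (K * (N : ℝ) ^ (p * μ)) := by
    refine (Finset.sum_le_sum hblk).trans (le_of_eq ?_)
    rw [Finset.sum_const, Finset.card_range, nsmul_eq_mul]
  have hNp : (1 : ℝ) ≤ (N : ℝ) ^ (p * μ) := Real.one_le_rpow hN1 (by positivity)
  have hnp : (1 : ℝ) ≤ (n : ℝ) ^ p := Real.one_le_rpow hn1 hp0.le
  have h13 : (n : ℝ) ^ (p - 1) * ∑ i ∈ Finset.range n, (∫ t in (0 : ℝ)..1, |fs (2 ^ (i + 1)) (ci N i) t| ^ p) + 1 ≤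
      (K + 1) * ((n : ℝ) ^ p * (N : ℝ) ^ (p * μ)) := by
    have e1 : (n : ℝ) ^ (p - 1) * (n * (K * (N : ℝ) ^ (p * μ))) = K * ((n : ℝ) ^ p * (N : ℝ) ^ (p * μ)) := by
      have e2 : (n : ℝ) ^ (p - 1) * n = (n : ℝ) ^ p := by
        conv_lhs => rw [← Real.rpow_one (n : ℝ)]
        rw [← Real.rpow_mul (by positivity), ← Real.rpow_add (by positivity)]
        congr 1
        ring
      rw [← e2]
      ring
    have h14 := mul_le_mul_of_nonneg_left h12 (show 0 ≤ (n : ℝ) ^ (p - 1) by positivity)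
    rw [e1] at h14
    have h15 : 1 ≤ (n : ℝ) ^ p * (N : ℝ) ^ (p * μ) := one_le_mul_of_one_le_of_one_le hnp hNp
    linarith
  calc ∫ t in (0 : ℝ)..1, |E N t| ^ p
      ≤ (2 : ℝ) ^ p * ((K + 1) * ((n : ℝ) ^ p * (N : ℝ) ^ (p * μ))) := by
        rw [h11] at h10
        exact h10.trans (mul_le_mul_of_nonneg_left h13 (by positivity))
    _ = (2 * (K + 1) ^ (1 / p) * (n * (N : ℝ) ^ μ)) ^ p := by
        rw [Real.mul_rpow (by positivity) (by positivity), Real.mul_rpow (by positivity) (by positivity),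
          Real.mul_rpow (by positivity) (by positivity), ← Real.rpow_mul (by positivity : (0 : ℝ) ≤ K + 1),
          ← Real.rpow_mul hN0.le, one_div_mul_cancel hp0.ne', Real.rpow_one, mul_comm μ p]
        ring
    _ ≤ (2 * (K + 1) ^ (1 / p) * (1 + 2 / δ) * (N : ℝ) ^ (max Th (1 - 1 / p) + 2 * δ)) ^ p := by
        refine Real.rpow_le_rpow (by positivity) ?_ hp0.le
        rw [mul_assoc (2 * (K + 1) ^ (1 / p)) (1 + 2 / δ)]
        refine mul_le_mul_of_nonneg_left ?_ (by positivity)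
        calc (n : ℝ) * (N : ℝ) ^ μ ≤ ((1 + 2 / δ) * (N : ℝ) ^ δ) * (N : ℝ) ^ μ :=
              mul_le_mul_of_nonneg_right (log_bound hδ N hN) (by positivity)
          _ = (1 + 2 / δ) * (N : ℝ) ^ (μ + δ) := by
              rw [mul_assoc, ← Real.rpow_add hN0, add_comm δ μ]
          _ ≤ (1 + 2 / δ) * (N : ℝ) ^ (max Th (1 - 1 / p) + 2 * δ) :=
              mul_le_mul_of_nonneg_left (Real.rpow_le_rpow_of_exponent_le hN1 hμ4) (by positivity)


lemma E_ii (N : ℕ) (hN : 1 ≤ N) {p : ℝ} (hp : 0 ≤ p) :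
    IntervalIntegrable (fun t => |E N t| ^ p) volume 0 1 := by
  have h3 : IntervalIntegrable (fun t => |-(fs N (fun d => Mt (N / d)) t) - 1 / 2| ^ p) volume 0 1 := by
    obtain ⟨B, hB⟩ : ∃ B : ℝ, ∀ d ∈ Finset.Icc 1 N, |Mt (N / d)| ≤ B := by
      obtain ⟨B, hB⟩ := ((Finset.Icc 1 N).image fun d => |Mt (N / d)|).exists_le
      exact ⟨B, fun d hd => hB _ (Finset.mem_image_of_mem _ hd)⟩
    refine ii_abs_rpow (M := N * B / 2 + 1 / 2) ((measurable_fs _ _).neg.sub_const _) hp fun t => ?_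
    have h4 := abs_fs_le N (fun d => Mt (N / d)) B hB t
    show |-(fs N (fun d => Mt (N / d)) t) - 1 / 2| ≤ N * B / 2 + 1 / 2
    rw [abs_le] at h4 ⊢
    constructor <;> linarith [h4.1, h4.2]
  refine h3.congr ?_
  intro t ht
  rw [Set.uIoc_of_le zero_le_one, Set.mem_Ioc] at ht
  show |-(fs N (fun d => Mt (N / d)) t) - 1 / 2| ^ p = |E N t| ^ p
  rw [E_eq N hN ht.1.le ht.2]
  rfl

theorem t_EU : J_EU := by
  intro p ε hp hε
  set δ : ℝ := min (ε / 2) 1 with hδ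
  have hδ0 : 0 < δ := lt_min (by linarith) one_pos
  have hδ1 : δ ≤ 1 := min_le_right _ _
  have hδ2 : 2 * δ ≤ ε := by
    have := min_le_left (ε / 2) 1
    linarith
  have hp0 : 0 < p := by linarith
  rcases le_or_gt 2 p with h2 | h2
  · obtain ⟨A, hA, hmain⟩ := main2 h2 hδ0 hδ1
    refine ⟨A, hA, fun N hN => ?_⟩
    have hN0 : (0 : ℝ) < N := by exact_mod_cast hN
    have hN1 : (1 : ℝ) ≤ N := by exact_mod_cast hN
    have hI0 : 0 ≤ ∫ t in (0 : ℝ)..1, |E N t| ^ p :=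
      intervalIntegral.integral_nonneg zero_le_one fun t _ => by positivity
    calc (∫ t in (0 : ℝ)..1, |E N t| ^ p) ^ (1 / p)
        ≤ ((A * (N : ℝ) ^ (max Th (1 - 1 / p) + 2 * δ)) ^ p) ^ (1 / p) :=
          Real.rpow_le_rpow hI0 (hmain N hN) (by positivity)
      _ = A * (N : ℝ) ^ (max Th (1 - 1 / p) + 2 * δ) := by
          rw [← Real.rpow_mul (by positivity), mul_one_div_cancel hp0.ne', Real.rpow_one]
      _ ≤ A * (N : ℝ) ^ (max Th (1 - 1 / p) + ε) :=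
          mul_le_mul_of_nonneg_left (Real.rpow_le_rpow_of_exponent_le hN1 (by linarith)) hA.le
  · obtain ⟨A, hA, hmain⟩ := main2 (le_refl (2 : ℝ)) hδ0 hδ1
    have hTh0 : 1 / 2 ≤ Th := Pool.Agent.H295R2.half_le_zetaSup
    have hmax : max Th (1 - 1 / 2) = Th := max_eq_left (by linarith)
    rw [hmax] at hmain
    refine ⟨(1 + A ^ 2) ^ (1 / p), by positivity, fun N hN => ?_⟩
    have hN0 : (0 : ℝ) < N := by exact_mod_cast hN
    have hN1 : (1 : ℝ) ≤ N := by exact_mod_cast hN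
    set l : ℝ := (N : ℝ) ^ (Th + 2 * δ) with hl
    have hl0 : 0 < l := by positivity
    have hI0 : 0 ≤ ∫ t in (0 : ℝ)..1, |E N t| ^ p :=
      intervalIntegral.integral_nonneg zero_le_one fun t _ => by positivity
    have hpt : ∀ a : ℝ, 0 ≤ a → a ^ p ≤ l ^ p + l ^ (p - 2) * a ^ (2 : ℝ) := by
      intro a ha
      rcases le_or_gt a l with h | h
      · have h3 := Real.rpow_le_rpow ha h hp0.le
        have h4 : 0 ≤ l ^ (p - 2) * a ^ (2 : ℝ) := by positivity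
        linarith
      · have ha0 : 0 < a := hl0.trans h
        have h3 : a ^ p = a ^ (p - 2) * a ^ (2 : ℝ) := by
          rw [← Real.rpow_add ha0]
          congr 1
          ring
        have h4 : a ^ (p - 2) ≤ l ^ (p - 2) :=
          Real.rpow_le_rpow_of_nonpos hl0 h.le (by linarith)
        have h5 : 0 ≤ l ^ p := by positivity
        rw [h3]
        have h6 := mul_le_mul_of_nonneg_right h4 (show 0 ≤ a ^ (2 : ℝ) by positivity)
        linarith
    have h7 : ∫ t in (0 : ℝ)..1, |E N t| ^ p ≤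
        ∫ t in (0 : ℝ)..1, (l ^ p + l ^ (p - 2) * |E N t| ^ (2 : ℝ)) :=
      intervalIntegral.integral_mono_on zero_le_one (E_ii N hN hp0.le)
        (intervalIntegrable_const.add ((E_ii N hN (by norm_num)).const_mul _)) fun t _ => hpt _ (abs_nonneg _)
    have h8 : ∫ t in (0 : ℝ)..1, (l ^ p + l ^ (p - 2) * |E N t| ^ (2 : ℝ)) =
        l ^ p + l ^ (p - 2) * ∫ t in (0 : ℝ)..1, |E N t| ^ (2 : ℝ) := by
      rw [intervalIntegral.integral_add intervalIntegrable_const ((E_ii N hN (by norm_num)).const_mul _),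
        intervalIntegral.integral_const_mul, intervalIntegral.integral_const]
      simp
    have h9 : l ^ p + l ^ (p - 2) * ∫ t in (0 : ℝ)..1, |E N t| ^ (2 : ℝ) ≤ (1 + A ^ 2) * l ^ p := by
      have h10 := mul_le_mul_of_nonneg_left (hmain N hN) (show 0 ≤ l ^ (p - 2) by positivity)
      have h11 : l ^ (p - 2) * (A * l) ^ (2 : ℝ) = A ^ 2 * l ^ p := by
        rw [Real.mul_rpow hA.le hl0.le, Real.rpow_two A]
        have : l ^ (p - 2) * l ^ (2 : ℝ) = l ^ p := by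
          rw [← Real.rpow_add hl0]
          congr 1
          ring
        rw [← this]
        ring
      rw [h11] at h10
      linarith
    have h12 : Th + 2 * δ ≤ max Th (1 - 1 / p) + ε := by
      have := le_max_left Th (1 - 1 / p)
      linarith
    calc (∫ t in (0 : ℝ)..1, |E N t| ^ p) ^ (1 / p) ≤ ((1 + A ^ 2) * l ^ p) ^ (1 / p) := by
          refine Real.rpow_le_rpow hI0 ?_ (by positivity)
          rw [h8] at h7
          exact h7.trans h9
      _ = (1 + A ^ 2) ^ (1 / p) * l := by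
          rw [Real.mul_rpow (by positivity) (by positivity), ← Real.rpow_mul hl0.le, mul_one_div_cancel hp0.ne',
            Real.rpow_one]
      _ ≤ (1 + A ^ 2) ^ (1 / p) * (N : ℝ) ^ (max Th (1 - 1 / p) + ε) :=
          mul_le_mul_of_nonneg_left (Real.rpow_le_rpow_of_exponent_le hN1 h12) (by positivity)

end Pool.Agent.Q277.FA
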